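import Pool.Agent.helper59.GF.Spec

set_option autoImplicit false

/-! # Rows gf (MP_06d6be_co), row TIM: the lexicographic order -/

namespace Pool.Agent.GF

open Filter Topology

/-- the digit of the exponent `e` -/
def TIM_d (m e n : ℕ) : ℕ := n / m ^ e % m

/-- digits under `n ↦ n + 1` -/
theorem TIM_succ (m n e : ℕ) (hm : 2 ≤ m) :
    (m ^ (e + 1) ∣ n + 1 → TIM_d m e (n + 1) = 0 ∧ TIM_d m e n = m - 1) ∧
    (m ^ e ∣ n + 1 → ¬ m ^ (e + 1) ∣ n + 1 → TIM_d m e (n + 1) = TIM_d m e n + 1) ∧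
    (¬ m ^ e ∣ n + 1 → TIM_d m e (n + 1) = TIM_d m e n) := by
  have hpos : 0 < m ^ e := by positivity
  unfold TIM_d
  refine ⟨fun h => ?_, fun h h' => ?_, fun h => ?_⟩
  · have h1 : m ^ e ∣ n + 1 := dvd_trans (pow_dvd_pow m (Nat.le_succ e)) h
    have h2 : (n + 1) / m ^ e = n / m ^ e + 1 := by rw [Nat.succ_div, if_pos h1]
    obtain ⟨c, hc⟩ := h
    have h3 : (n + 1) / m ^ e = m * c := by
      rw [hc, pow_succ, mul_assoc, Nat.mul_div_cancel_left _ hpos]
    have hc0 : 0 < c := by
      rcases Nat.eq_zero_or_pos c with h0 | h0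
      · rw [h0, mul_zero] at hc; omega
      · exact h0
    have h4 : n / m ^ e = m * c - 1 := by
      rw [h2] at h3
      exact Nat.eq_sub_of_add_eq h3
    refine ⟨by rw [h3, Nat.mul_mod_right], ?_⟩
    rw [h4]
    obtain ⟨c', rfl⟩ : ∃ c', c = c' + 1 := ⟨c - 1, by omega⟩
    have h5 : m * (c' + 1) - 1 = m - 1 + m * c' := by
      rw [mul_add, mul_one]
      omega
    rw [h5, Nat.add_mul_mod_self_left, Nat.mod_eq_of_lt (by omega)]
  · have h2 : (n + 1) / m ^ e = n / m ^ e + 1 := by rw [Nat.succ_div, if_pos h]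
    have h3 : ¬ m ∣ n / m ^ e + 1 := by
      rintro ⟨c, hc⟩
      apply h'
      refine ⟨c, ?_⟩
      have h5 := Nat.div_mul_cancel h
      rw [h2, hc] at h5
      rw [← h5, pow_succ]
      ring
    rw [h2]
    have h6 : (n / m ^ e + 1) % m = (n / m ^ e % m + 1) % m := by rw [Nat.mod_add_mod]
    have h7 : n / m ^ e % m < m := Nat.mod_lt _ (by omega)
    have h8 : n / m ^ e % m + 1 ≠ m := by
      intro h8
      rw [h8, Nat.mod_self] at h6
      exact h3 (Nat.dvd_of_mod_eq_zero h6)
    rw [h6, Nat.mod_eq_of_lt (by omega)]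
  · rw [Nat.succ_div, if_neg h, add_zero]

/-- all digits occur -/
theorem TIM_surj (p m : ℕ) (j : Fin (p + 1) → Fin m) :
    ∃ n, n < m ^ (p + 1) ∧ ∀ q : Fin (p + 1), TIM_d m (p - q) n = (j q : ℕ) := by
  refine ⟨(finFunctionFinEquiv fun b : Fin (p + 1) => j (Fin.rev b) : Fin (m ^ (p + 1))), Fin.is_lt _, ?_⟩
  intro q
  have h := congrFun (finFunctionFinEquiv.symm_apply_apply fun b : Fin (p + 1) => j (Fin.rev b)) (Fin.rev q)
  have h1 : ((finFunctionFinEquiv fun b : Fin (p + 1) => j (Fin.rev b) : Fin (m ^ (p + 1))) : ℕ) /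
      m ^ ((Fin.rev q : Fin (p + 1)) : ℕ) % m = (j (Fin.rev (Fin.rev q)) : ℕ) := congrArg Fin.val h
  have h2 : ((Fin.rev q : Fin (p + 1)) : ℕ) = p - q := by
    rw [Fin.val_rev]
    omega
  rw [Fin.rev_rev, h2] at h1
  exact h1

theorem TIM : TIM_stmt := by
  intro p m hm hlam
  -- lower bound for the weights
  obtain ⟨q₀, -, hq₀⟩ := Finset.exists_min_image (Finset.univ : Finset (Fin (p + 1))) (lam p) ⟨0, Finset.mem_univ _⟩
  obtain ⟨l₀, hl₀⟩ : ∃ l₀ : ℝ, l₀ = lam p q₀ := ⟨_, rfl⟩
  have hl : 0 < l₀ := by rw [hl₀]; exact hlam q₀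
  obtain ⟨S, hS⟩ : ∃ S : ℝ, S = ∑ q, lam p q := ⟨_, rfl⟩
  have hS0 : 0 ≤ S := by rw [hS]; exact Finset.sum_nonneg fun q _ => (hlam q).le
  have hmR : (0 : ℝ) < m := by exact_mod_cast hm
  obtain ⟨L, hL⟩ : ∃ L : ℝ, L = 1 + 16 * m * (1 + S) / l₀ := ⟨_, rfl⟩
  have hL1 : 1 ≤ L := by
    rw [hL]
    have : 0 ≤ 16 * m * (1 + S) / l₀ := by positivity
    linarith
  have hL0 : 0 < L := by linarith
  have hLm : 16 * m * (1 + S) ≤ l₀ * L := by
    have e1 : l₀ * L = l₀ + 16 * m * (1 + S) := by
      rw [hL]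
      field_simp
    rw [e1]
    linarith
  let dig : ℕ → Fin (p + 1) → Fin m := fun n q => ⟨TIM_d m (p - q) n, Nat.mod_lt _ hm⟩
  let X : Fin (p + 1) → Fin m → ℝ := fun q j => -(L ^ (p - (q : ℕ)) * ((j : ℕ) : ℝ))
  refine ⟨X, dig, fun n => -∑ q, lam p q * X q (dig n q), ?_, ?_, fun n => rfl, ?_⟩
  · intro q j j' h
    have h1 : L ^ (p - (q : ℕ)) * ((j : ℕ) : ℝ) = L ^ (p - (q : ℕ)) * ((j' : ℕ) : ℝ) := neg_injective h
    have h2 := mul_left_cancel₀ (by positivity) h1
    exact Fin.ext (by exact_mod_cast h2)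
  · intro j
    obtain ⟨n, hn, hj⟩ := TIM_surj p m j
    exact ⟨n, hn, funext fun q => Fin.ext (hj q)⟩
  · -- the step
    have key : ∀ n, n + 1 < m ^ (p + 1) → ∃ W : ℝ, 0 < W ∧
        16 * W ≤ (-∑ q, lam p q * X q (dig (n + 1) q)) - (-∑ q, lam p q * X q (dig n q)) ∧
        ∀ q, X q (dig (n + 1) q) - X q (dig n q) ≤ 2 * W := by
      intro n hn
      have hm2 : 2 ≤ m := by
        rcases Nat.lt_or_ge m 2 with h | h
        · have : m = 1 := by omega
          rw [this, one_pow] at hn
          omega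
        · exact h
      -- the exponent of the digit which increases
      let E : ℕ := Nat.findGreatest (fun e => m ^ e ∣ n + 1) p
      have hEp : E ≤ p := Nat.findGreatest_le p
      have hE1 : m ^ E ∣ n + 1 :=
        Nat.findGreatest_spec (P := fun e => m ^ e ∣ n + 1) (Nat.zero_le p) (by simp)
      have hE2 : ¬ m ^ (E + 1) ∣ n + 1 := by
        intro h
        rcases Nat.lt_or_ge E p with hlt | hge
        · exact Nat.findGreatest_is_greatest (P := fun e => m ^ e ∣ n + 1) (Nat.lt_succ_self E) hlt h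
        · have hEe : E = p := le_antisymm hEp hge
          rw [hEe] at h
          exact absurd (Nat.le_of_dvd (Nat.succ_pos n) h) (by omega)
      -- differences
      let t : Fin (p + 1) → ℝ := fun q => X q (dig n q) - X q (dig (n + 1) q)
      have ht : ∀ q : Fin (p + 1), t q =
          L ^ (p - (q : ℕ)) * ((TIM_d m (p - q) (n + 1) : ℕ) : ℝ) - L ^ (p - (q : ℕ)) * ((TIM_d m (p - q) n : ℕ) : ℝ) := by
        intro q
        show -(L ^ (p - (q : ℕ)) * ((TIM_d m (p - q) n : ℕ) : ℝ)) -
          -(L ^ (p - (q : ℕ)) * ((TIM_d m (p - q) (n + 1) : ℕ) : ℝ)) = _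
        ring
      let W : ℝ := l₀ * L ^ E / (32 * (1 + S))
      have hW0 : 0 < W := by
        show 0 < l₀ * L ^ E / (32 * (1 + S))
        positivity
      have hWe : 32 * (1 + S) * W = l₀ * L ^ E := by
        show 32 * (1 + S) * (l₀ * L ^ E / (32 * (1 + S))) = l₀ * L ^ E
        field_simp
      have hge : ∀ q, -(2 * W) ≤ t q := by
        intro q
        obtain ⟨s1, s2, s3⟩ := TIM_succ m n (p - q) hm2
        rw [ht q]
        by_cases h1 : m ^ (p - (q : ℕ) + 1) ∣ n + 1
        · obtain ⟨a1, a2⟩ := s1 h1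
          rw [a1, a2]
          -- `p - q < E`
          have hlt : p - (q : ℕ) < E := by
            by_contra hcon
            push Not at hcon
            exact hE2 (dvd_trans (pow_dvd_pow m (by omega)) h1)
          have h3 : L ^ (p - (q : ℕ)) ≤ L ^ (E - 1) := pow_le_pow_right₀ hL1 (by omega)
          have h4 : L ^ E = L * L ^ (E - 1) := by
            rw [← pow_succ']
            congr 1
            omega
          have h5 : ((m - 1 : ℕ) : ℝ) ≤ m := by exact_mod_cast Nat.sub_le m 1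
          have h6 : L ^ (p - (q : ℕ)) * ((m - 1 : ℕ) : ℝ) ≤ L ^ (E - 1) * m :=
            mul_le_mul h3 h5 (by positivity) (by positivity)
          have h7 : 16 * (1 + S) * (L ^ (E - 1) * m) ≤ 16 * (1 + S) * (2 * W) := by
            have : 16 * (1 + S) * (2 * W) = l₀ * L ^ E := by linarith
            rw [this, h4]
            have h8 := mul_le_mul_of_nonneg_right hLm (show 0 ≤ L ^ (E - 1) by positivity)
            calc 16 * (1 + S) * (L ^ (E - 1) * m) = 16 * m * (1 + S) * L ^ (E - 1) := by ring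
              _ ≤ l₀ * L * L ^ (E - 1) := h8
              _ = l₀ * (L * L ^ (E - 1)) := by ring
          have h9 : L ^ (E - 1) * m ≤ 2 * W := le_of_mul_le_mul_left h7 (by positivity)
          push_cast at *
          linarith
        · by_cases h2 : m ^ (p - (q : ℕ)) ∣ n + 1
          · rw [s2 h2 h1]
            push_cast
            have : 0 < L ^ (p - (q : ℕ)) := by positivity
            nlinarith
          · rw [s3 h2]
            linarith
      have hqE : ∃ q : Fin (p + 1), (q : ℕ) = p - E := ⟨⟨p - E, by omega⟩, rfl⟩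
      obtain ⟨qE, hqE⟩ := hqE
      have htE : t qE = L ^ E := by
        have h1 : p - (qE : ℕ) = E := by omega
        rw [ht qE, h1, (TIM_succ m n E hm2).2.1 hE1 hE2]
        push_cast
        ring
      have hsum : (-∑ q, lam p q * X q (dig (n + 1) q)) - (-∑ q, lam p q * X q (dig n q)) = ∑ q, lam p q * t q := by
        rw [neg_sub_neg, ← Finset.sum_sub_distrib]
        refine Finset.sum_congr rfl fun q _ => ?_
        show _ = lam p q * (X q (dig n q) - X q (dig (n + 1) q))
        ring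
      have hsum2 : ∑ q, lam p q * (t q + 2 * W) = ∑ q, lam p q * t q + S * (2 * W) := by
        rw [hS, Finset.sum_mul, ← Finset.sum_add_distrib]
        exact Finset.sum_congr rfl fun q _ => by ring
      have hsum3 : lam p qE * (t qE + 2 * W) ≤ ∑ q, lam p q * (t q + 2 * W) :=
        Finset.single_le_sum (f := fun q => lam p q * (t q + 2 * W))
          (fun q _ => mul_nonneg (hlam q).le (by linarith [hge q])) (Finset.mem_univ qE)
      have hsum4 : l₀ * L ^ E ≤ lam p qE * (t qE + 2 * W) := by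
        rw [htE]
        have h1 : l₀ ≤ lam p qE := by rw [hl₀]; exact hq₀ qE (Finset.mem_univ _)
        exact mul_le_mul h1 (by linarith) (by positivity) (hlam qE).le
      refine ⟨W, hW0, ?_, ?_⟩
      · rw [hsum]
        have : 16 * W ≤ l₀ * L ^ E - S * (2 * W) := by
          rw [← hWe]
          nlinarith
        linarith
      · intro q
        have := hge q
        show X q (dig (n + 1) q) - X q (dig n q) ≤ 2 * W
        have h2 : t q = X q (dig n q) - X q (dig (n + 1) q) := rfl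
        linarith
    refine ⟨fun n hn => ?_, fun n hn q => ?_⟩
    · obtain ⟨W, hW, h1, -⟩ := key n hn
      show (-∑ q, lam p q * X q (dig n q)) < (-∑ q, lam p q * X q (dig (n + 1) q))
      linarith
    · obtain ⟨W, hW, h1, h2⟩ := key n hn
      have h3 := h2 q
      show X q (dig (n + 1) q) - X q (dig n q) ≤
        ((-∑ q, lam p q * X q (dig (n + 1) q)) - (-∑ q, lam p q * X q (dig n q))) / 8
      linarith

end Pool.Agent.GF
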